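import Pool.Agent.W516.MTR.Defs

/-!
# Systems of linear relations between periods
-/

set_option autoImplicit false

namespace Pool.Agent.W516.MTS

open Matrix Pool.Agent.W516.MTZ Pool.Agent.W516.MTR

variable {m X : Type} [Fintype m] [DecidableEq m] [Fintype X] [DecidableEq X]

/-- The vector `v` satisfies the linear relations in `V`. -/
def Solves (V : Submodule ℚ (m → ℚ)) (v : m → ℂ) : Prop := ∀ c ∈ V, ∑ j, (c j : ℂ) * v j = 0

/-- The space `V` of relations is graded by the weight. -/
def Graded (M : Motive m X) (V : Submodule ℚ (m → ℚ)) : Prop :=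
  ∀ c ∈ V, ∀ n : ℕ, (fun j => if M.wt j = n then c j else 0) ∈ V

/-- The space of the linear relations with rational coefficients between the motivic periods
along `a`. -/
def motivicRelations (M : Motive m X) (a : m → ℚ) : Submodule ℚ (m → ℚ) where
  carrier := {c | ∀ g ∈ M.gp, ∑ j, (c j : ℂ) * per a ((g : (Matrix m m ℂ)ˣ) : Matrix m m ℂ) j = 0}
  zero_mem' := by
    intro g _
    simp
  add_mem' := by
    intro c d hc hd g hg
    have h1 := hc g hg
    have h2 := hd g hg
    simp only [Pi.add_apply, Rat.cast_add, add_mul, Finset.sum_add_distrib]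
    rw [h1, h2, add_zero]
  smul_mem' := by
    intro e c hc g hg
    have h1 := hc g hg
    simp only [Pi.smul_apply, smul_eq_mul, Rat.cast_mul, mul_assoc, ← Finset.mul_sum]
    rw [h1, mul_zero]

end Pool.Agent.W516.MTS
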