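import Pool.Agent.W516.MTS.Defs
import Pool.Agent.W516.MTR.Main

/-!
# The motivic relations as the largest stable system of relations
-/

set_option autoImplicit false
set_option linter.unusedSectionVars false

namespace Pool.Agent.W516.MTS

open Matrix Pool.Agent.W516.MTZ Pool.Agent.W516.MTH Pool.Agent.W516.MTR

variable {m X : Type} [Fintype m] [DecidableEq m] [Fintype X] [DecidableEq X]

/-- The solutions of a system of relations. -/
def Sol (V : Submodule ℚ (m → ℚ)) : Submodule ℂ (m → ℂ) where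
  carrier := {v | Solves V v}
  zero_mem' := by
    intro c _
    simp
  add_mem' := by
    intro v w hv hw c hc
    have h1 := hv c hc
    have h2 := hw c hc
    simp only [Pi.add_apply, mul_add, Finset.sum_add_distrib]
    rw [h1, h2, add_zero]
  smul_mem' := by
    intro e v hv c hc
    have h1 := hv c hc
    have h2 : ∀ j, (c j : ℂ) * (e • v) j = e * ((c j : ℂ) * v j) := by
      intro j
      rw [Pi.smul_apply, smul_eq_mul]
      ring
    simp only [h2]
    rw [← Finset.mul_sum, h1, mul_zero]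

theorem mem_mot {M : Motive m X} {a : m → ℚ} {c : m → ℚ} : c ∈ motivicRelations M a ↔
    ∀ g ∈ M.gp, ∑ j, (c j : ℂ) * per a ((g : (Matrix m m ℂ)ˣ) : Matrix m m ℂ) j = 0 := Iff.rfl

theorem sum_image (M : Motive m X) (c : m → ℚ) (v : m → ℂ) : ∑ j, (c j : ℂ) * v j =
    ∑ n ∈ Finset.univ.image M.wt, ∑ j, ((if M.wt j = n then c j else 0 : ℚ) : ℂ) * v j := by
  rw [Finset.sum_comm]
  refine Finset.sum_congr rfl fun j _ => ?_
  rw [Finset.sum_eq_single (M.wt j)]
  · rw [if_pos rfl]
  · intro n _ hn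
    rw [if_neg (Ne.symm hn), Rat.cast_zero, zero_mul]
  · intro h
    exact absurd (Finset.mem_image_of_mem _ (Finset.mem_univ j)) h

theorem graded_dg {M : Motive m X} {V : Submodule ℚ (m → ℚ)} (hV : Graded M V) {v : m → ℂ}
    (hv : Solves V v) (μ : ℂˣ) : Solves V (v ᵥ* (dg M μ : Matrix m m ℂ)) := by
  intro c hc
  rw [sum_image M]
  refine Finset.sum_eq_zero fun n _ => ?_
  have h1 := hv _ (hV c hc n)
  have h2 : ∀ j, ((if M.wt j = n then c j else 0 : ℚ) : ℂ) *
      (v ᵥ* (dg M μ : Matrix m m ℂ)) j =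
      (μ : ℂ) ^ n * (((if M.wt j = n then c j else 0 : ℚ) : ℂ) * v j) := by
    intro j
    rw [dg_val, vecMul_diagonal]
    by_cases h : M.wt j = n
    · rw [h]
      ring
    · simp [h]
  simp only [h2, ← Finset.mul_sum]
  rw [h1, mul_zero]

theorem mot_graded (M : Motive m X) (a : m → ℚ) : Graded M (motivicRelations M a) := by
  intro c hc n g hg
  -- a polynomial in `μ` which vanishes for all `μ ≠ 0`
  set q : Polynomial ℂ := ∑ j, Polynomial.monomial (M.wt j)
    ((c j : ℂ) * per a ((g : (Matrix m m ℂ)ˣ) : Matrix m m ℂ) j) with hq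
  have hroot : ∀ μ : ℂ, μ ≠ 0 → q.IsRoot μ := by
    intro μ hμ
    have h1 := hc (g * dg M (Units.mk0 μ hμ)) (Subgroup.mul_mem _ hg (dg_mem M _))
    rw [Units.val_mul, per_mul] at h1
    rw [Polynomial.IsRoot, hq, Polynomial.eval_finsetSum, ← h1]
    refine Finset.sum_congr rfl fun j _ => ?_
    rw [Polynomial.eval_monomial, dg_val, vecMul_diagonal, Units.val_mk0]
    ring
  have hq0 : q = 0 := by
    apply Polynomial.eq_zero_of_infinite_isRoot
    refine Set.Infinite.mono (s := {0}ᶜ) (fun μ hμ => hroot μ hμ) ?_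
    exact (Set.finite_singleton (0 : ℂ)).infinite_compl
  have h2 : q.coeff n = 0 := by rw [hq0, Polynomial.coeff_zero]
  rw [hq, Polynomial.finsetSum_coeff] at h2
  rw [← h2]
  refine Finset.sum_congr rfl fun j _ => ?_
  rw [Polynomial.coeff_monomial]
  by_cases h : M.wt j = n
  · simp [h]
  · simp [h]

theorem main_s {M : Motive m X} {p : (Matrix m m ℂ)ˣ} (hp : p ∈ M.gp)
    (hdeg : ∀ x, Odd (M.deg x) ∧ 3 ≤ M.deg x) (hinj : Function.Injective M.deg)
    (hpi : (p : Matrix m m ℂ) M.t M.t = 2 * Real.pi * Complex.I)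
    (hzeta : ∀ x, (p : Matrix m m ℂ) M.o (M.s x) = riemannZeta (M.deg x)) (a : m → ℚ) :
    IsGreatest {V : Submodule ℚ (m → ℚ) | Graded M V ∧ Solves V (per a (p : Matrix m m ℂ)) ∧
      ∀ v : m → ℂ, Solves V v → Solves V (v ᵥ* (((p⁻¹ : (Matrix m m ℂ)ˣ) : Matrix m m ℂ) *
        (p : Matrix m m ℂ).map (starRingEnd ℂ)))} (motivicRelations M a) := by
  have hs_val : ((p⁻¹ * sg cj p : (Matrix m m ℂ)ˣ) : Matrix m m ℂ) =
      ((p⁻¹ : (Matrix m m ℂ)ˣ) : Matrix m m ℂ) * (p : Matrix m m ℂ).map (starRingEnd ℂ) := by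
    rw [Units.val_mul]
    rfl
  have hsgp : p⁻¹ * sg cj p ∈ M.gp :=
    Subgroup.mul_mem _ (Subgroup.inv_mem _ hp) (sg_mem M cj hp)
  refine ⟨⟨mot_graded M a, fun c hc => hc p hp, fun v hv => ?_⟩, ?_⟩
  · -- `v` is a combination of the rows `per a g`
    rw [← hs_val]
    have h1 : v ∈ Submodule.span ℂ
        {w : m → ℂ | ∃ g ∈ M.gp, w = per a ((g : (Matrix m m ℂ)ˣ) : Matrix m m ℂ)} := by
      set G : Set (Matrix m m ℂ) := {A | ∃ g ∈ M.gp,
        A = rowM (per a ((g : (Matrix m m ℂ)ˣ) : Matrix m m ℂ))} with hG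
      have h1 : rowM v ∈ Submodule.span ℂ G := by
        refine Pool.Agent.W351.MTH.T_SPAN m M.wt G ?_ ?_ _ ?_
        · rintro σ _ ⟨g, hg, rfl⟩
          refine ⟨sg σ g, sg_mem M σ hg, ?_⟩
          ext i j
          rw [Matrix.map_apply, rowM_apply, rowM_apply]
          simp only [per, map_sum, map_mul, map_ratCast, sg_apply]
        · rintro μ hμ _ ⟨g, hg, rfl⟩
          refine ⟨g * dg M (Units.mk0 μ hμ), Subgroup.mul_mem _ hg (dg_mem M _), ?_⟩
          ext i j
          rw [mul_diagonal, rowM_apply, rowM_apply, Units.val_mul, per_mul, dg_val,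
            vecMul_diagonal, Units.val_mk0]
        · intro n c hc hc0
          have h2 : ∀ w : m → ℂ, ∑ i, ∑ j, (c i j : ℂ) * w j =
              ∑ j, ((∑ i, c i j : ℚ) : ℂ) * w j := by
            intro w
            rw [Finset.sum_comm]
            refine Finset.sum_congr rfl fun j _ => ?_
            rw [Rat.cast_sum, Finset.sum_mul]
          simp only [rowM_apply]
          rw [h2 v]
          refine hv (fun j => ∑ i, c i j) fun g hg => ?_
          rw [← h2]
          exact hc0 _ ⟨g, hg, rfl⟩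
      have h2 : Submodule.span ℂ G ≤ (Submodule.span ℂ
          {w : m → ℂ | ∃ g ∈ M.gp, w = per a ((g : (Matrix m m ℂ)ˣ) : Matrix m m ℂ)}).comap
          (rowL M.o) := by
        rw [Submodule.span_le]
        rintro _ ⟨g, hg, rfl⟩
        exact Submodule.subset_span ⟨g, hg, rfl⟩
      exact h2 h1
    have h2 : Submodule.span ℂ
        {w : m → ℂ | ∃ g ∈ M.gp, w = per a ((g : (Matrix m m ℂ)ˣ) : Matrix m m ℂ)} ≤
        (Sol (motivicRelations M a)).comap
          (Matrix.vecMulLinear ((p⁻¹ * sg cj p : (Matrix m m ℂ)ˣ) : Matrix m m ℂ)) := by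
      rw [Submodule.span_le]
      rintro _ ⟨g, hg, rfl⟩
      have h3 : Solves (motivicRelations M a)
          (per a ((g * (p⁻¹ * sg cj p) : (Matrix m m ℂ)ˣ) : Matrix m m ℂ)) :=
        fun c hc => hc _ (Subgroup.mul_mem _ hg hsgp)
      rw [Units.val_mul, per_mul] at h3
      exact h3
    exact h2 h1
  · rintro V ⟨hV1, hV2, hV3⟩ c hc g hg
    have hH : RStab M (Sol V) ≤ M.gp := fun g hg => hg.1
    have hs : p⁻¹ * sg cj p ∈ RStab M (Sol V) := by
      refine ⟨hsgp, fun v hv => ?_⟩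
      rw [hs_val]
      exact hV3 v hv
    have hd : ∀ μ : ℂˣ, dg M μ ∈ RStab M (Sol V) :=
      fun μ => ⟨dg_mem M μ, fun v hv => graded_dg hV1 hv μ⟩
    have hle := gp_le_conj hH hd hp cj hs hinj (conj_ne hdeg hpi hzeta)
    have h1 := (hle (Subgroup.mul_mem _ (Subgroup.inv_mem _ hp) hg)).2
      (per a (p : Matrix m m ℂ)) hV2
    rw [← per_mul, ← Units.val_mul, mul_inv_cancel_left] at h1
    exact h1 c hc

end Pool.Agent.W516.MTS
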